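import Pool.Agent.Helper63.ET.MesoNum
import Pool.Agent.Helper69.ET.Prop
import Pool.Agent.Helper27.T4.Phase

/-!
# The price of a meso hit with the objects of the meso block put in
-/

namespace Pool.Agent.Helper63.ET

open Finset Pool.Agent.Helper5.ET Pool.Agent.Helper27.T4

/-- borders between two close states -/
theorem border_cases {s s' : ℕ} (h : s' + 2 ≤ s) (hl : 60 * (sl s - sl s') ≤ sl s) :
    ∃ b, (b = sl s ∨ (sl s' < b ∧ b < sl s ∧ ∃ j, b = tau j)) ∧ sl s' ≤ b ∧ b ≤ sl s ∧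
      (∀ t, sl s' ≤ t → t < b → own t = own (sl s')) ∧
      (∀ t, b ≤ t → t < sl s → own t ≠ own (sl s')) := by
  have h0 := sl_ge s'
  have hsl : sl s' ≤ sl s := sl_mono (by omega)
  have h1 := era_spec (sl s') (tau_ge _)
  rcases le_or_gt (sl s) (bb (era (sl s') + 1)) with hc | hc
  · refine ⟨sl s, Or.inl rfl, hsl, le_rfl, ?_, ?_⟩
    · intro t ht1 ht2
      exact Helper69.ET.own_near (sl s') t (tau_ge _) ht1 (by omega)
    · intro t ht1 ht2
      omega
  · refine ⟨bb (era (sl s') + 1), Or.inr ⟨h1.2, hc, ?_⟩, h1.2.le, hc.le, ?_, ?_⟩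
    · obtain ⟨j, hj⟩ := bb_node (era (sl s') + 1)
      exact ⟨j, hj.symm⟩
    · intro t ht1 ht2
      exact Helper69.ET.own_near (sl s') t (tau_ge _) ht1 ht2
    · intro t ht1 ht2
      exact Helper69.ET.own_next (sl s') t (tau_ge _) ht1 (by omega)

theorem Nj_split (G : Fin 3) (z : ℕ) :
    Nj z = pr G ^ cnt G z * ∏ f ∈ univ.erase G, pr f ^ cnt f z := by
  rw [Nj, NN, ← Finset.mul_prod_erase univ _ (mem_univ G)]
  rfl

/-- the squares of the numbers of values of the product parameters -/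
theorem I_sq {s s' b : ℕ} (hb1 : sl s' ≤ b) (hb2 : b ≤ sl s)
    (h1 : ∀ t, sl s' ≤ t → t < b → own t = own (sl s'))
    (h2 : ∀ t, b ≤ t → t < sl s → own t ≠ own (sl s')) :
    (Helper69.ET.II s s') ^ 2 * Nj (sl s') ≤ Nj b ∧
      ∀ T : Finset (Fin 3), own (sl s') ∉ T →
        (∏ f ∈ T, pr f ^ ((cnt f (sl s) - cnt f (sl s')) / 2)) ^ 2 * Nj b ≤ Nj (sl s) := by
  set G := own (sl s') with hG
  have c1 : cnt G b = cnt G (sl s') + (b - sl s') := cnt_add_of G hb1 h1
  have c2 : cnt G (sl s) = cnt G b := cnt_eq_of G hb2 h2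
  have c3 : ∀ f, f ≠ G → cnt f b = cnt f (sl s') := fun f hf =>
    cnt_eq_of f hb1 (fun t ht1 ht2 => by rw [h1 t ht1 ht2]; exact fun h => hf h.symm)
  constructor
  · rw [Nj_split G, Nj_split G b]
    have e1 : ∏ f ∈ univ.erase G, pr f ^ cnt f b = ∏ f ∈ univ.erase G, pr f ^ cnt f (sl s') :=
      Finset.prod_congr rfl (fun f hf => by rw [c3 f (Finset.ne_of_mem_erase hf)])
    rw [e1, ← mul_assoc]
    apply Nat.mul_le_mul_right
    unfold Helper69.ET.II
    rw [← hG, c2, c1, ← pow_mul, ← pow_add]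
    apply Nat.pow_le_pow_right (pr_prime G).pos
    omega
  · intro T hT
    have e1 : (∏ f ∈ T, pr f ^ ((cnt f (sl s) - cnt f (sl s')) / 2)) ^ 2 ≤
        ∏ f ∈ univ.erase G, pr f ^ (cnt f (sl s) - cnt f (sl s')) := by
      rw [← Finset.prod_pow]
      calc ∏ f ∈ T, (pr f ^ ((cnt f (sl s) - cnt f (sl s')) / 2)) ^ 2
          ≤ ∏ f ∈ T, pr f ^ (cnt f (sl s) - cnt f (sl s')) := by
            apply Finset.prod_le_prod' 
            intro f _
            rw [← pow_mul]
            apply Nat.pow_le_pow_right (pr_prime f).pos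
            omega
        _ ≤ ∏ f ∈ univ.erase G, pr f ^ (cnt f (sl s) - cnt f (sl s')) := by
            apply Finset.prod_le_prod_of_subset_of_one_le'
            · intro f hf
              rw [Finset.mem_erase]
              exact ⟨fun h => hT (h ▸ hf), mem_univ f⟩
            · intro f _ _
              exact Nat.one_le_pow _ _ (pr_prime f).pos
    calc (∏ f ∈ T, pr f ^ ((cnt f (sl s) - cnt f (sl s')) / 2)) ^ 2 * Nj b
        ≤ (∏ f ∈ univ.erase G, pr f ^ (cnt f (sl s) - cnt f (sl s'))) * Nj b :=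
          Nat.mul_le_mul_right _ e1
      _ = Nj (sl s) := by
          rw [Nj_split G b, Nj_split G (sl s), c2, mul_left_comm, ← Finset.prod_mul_distrib]
          congr 1
          apply Finset.prod_congr rfl
          intro f hf
          rw [c3 f (Finset.ne_of_mem_erase hf), ← pow_add]
          congr 1
          have : cnt f (sl s') ≤ cnt f (sl s) := Helper69.ET.cnt_mono f (hb1.trans hb2)
          omega

/-- all families are large -/
theorem cnt_ge {l : ℕ} (hl : bb 3 ≤ l) (f : Fin 3) : l ≤ 11 * cnt f l := by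
  have h0 : bb 0 ≤ l := (bb_strictMono.monotone (by norm_num : 0 ≤ 3)).trans hl
  obtain ⟨h1, h2⟩ := era_spec l h0
  have h3 : 3 ≤ era l := by
    by_contra hc
    have h4 : bb (era l + 1) ≤ bb 3 := bb_strictMono.monotone (by omega)
    omega
  obtain ⟨k, hk⟩ : ∃ k, era l = k + 3 := ⟨era l - 3, by omega⟩
  have key : ∀ j, k ≤ j → j + 1 ≤ era l → own (bb j) = f → bb k / 2 ≤ cnt f l := by
    intro j hj1 hj2 hj3
    have hf : f = fam j := by rw [← hj3, own_eq, era_bb]
    have h5 : cnt f (bb (j + 1)) = cnt f (bb j) + (bb (j + 1) - bb j) :=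
      cnt_add_of f (bb_lt_succ j).le (fun t ht1 ht2 => by rw [own_of_mem ht1 ht2, hf])
    have h6 : cnt f (bb (j + 1)) ≤ cnt f l :=
      Helper69.ET.cnt_mono f ((bb_strictMono.monotone hj2).trans h1)
    have h7 := (bb_step j).1
    have h8 : bb k ≤ bb j := bb_strictMono.monotone hj1
    omega
  have h9 : bb k / 2 ≤ cnt f l := by
    rcases fam_cases k f with h | h | h
    · exact key k le_rfl (by omega) (by rw [h, own_eq, era_bb])
    · exact key (k + 1) (by omega) (by omega) (by rw [h, own_eq, era_bb])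
    · exact key (k + 2) (by omega) (by omega) (by rw [h, own_eq, era_bb])
  have g1 := bb_succ_le k
  have g2 := bb_succ_le (k + 1)
  have g3 := bb_succ_le (k + 2)
  have g4 := bb_succ_le (k + 3)
  rw [hk] at h2
  have g5 : k + 1 + 1 = k + 2 := rfl
  have g6 : k + 2 + 1 = k + 3 := rfl
  rw [g5] at g2
  rw [g6] at g3
  have g7 := bb_ge_pow k
  omega

/-- the price of a meso hit -/
theorem meso_price' {s s' : ℕ} (hs : s' + 2 ≤ s) (h0 : bb 3 ≤ sl s)
    (hl : 60 * (sl s - sl s') ≤ sl s) {T R : Finset (Fin 3)} (hT : own (sl s') ∉ T)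
    (hR : R.Nonempty) {B1 Wb : ℝ} (hB0 : 0 ≤ B1)
    (hB : B1 ≤ ((2 * Nj (se s) + Nj (sk (s' + 1))) / Nj (sl s) + 1) / 2 ^ lev (vlo s) + 2)
    (hW0 : 0 ≤ Wb) (hW : Wb ≤ Helper69.ET.WB s' (Helper69.ET.II s s')) :
    (∏ f ∈ T, (pr f : ℝ) ^ ((cnt f (sl s) - cnt f (sl s')) / 2)) * B1 * Wb *
      (Nj (se s') / Nj (se s) + 1 / ∏ f ∈ R, (pr f : ℝ) ^ cnt f (se s)) ≤
      200 * Real.exp (-((sl s : ℝ) - sl s') / 2) := by
  obtain ⟨b, hb, hb1, hb2, hb3, hb4⟩ := border_cases hs hl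
  obtain ⟨hI, hI1⟩ := I_sq hb1 hb2 hb3 hb4
  have hI1' := hI1 T hT
  refine meso_num hs hb (I := (Helper69.ET.II s s' : ℝ)) (Nat.cast_nonneg _)
    (Finset.prod_nonneg (fun f _ => by positivity)) ?_ (by exact_mod_cast hI) hB0 hB hW0 ?_ ?_
  · exact_mod_cast hI1'
  · refine hW.trans ?_
    unfold Helper69.ET.WB Helper69.ET.QQ
    apply mul_le_mul_of_nonneg_left _ (Real.exp_pos _).le
    have h1 : (2 : ℝ) / √(vlo s' : ℝ) ≤ 4 / √(vlo s' : ℝ) := by
      apply div_le_div_of_nonneg_right (by norm_num) (Real.sqrt_nonneg _)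
    have h2 : (Helper69.ET.II s s' : ℝ) * (2 / √(vlo s' : ℝ) + 4 * √(vhi s' : ℝ) /
        ((Nj (se s') / Nj (sl s') : ℕ) : ℝ)) ≤ (Helper69.ET.II s s' : ℝ) *
        (4 * √(vhi s' : ℝ) / ((Nj (se s') / Nj (sl s') : ℕ) : ℝ) + 4 / √(vlo s' : ℝ)) := by
      apply mul_le_mul_of_nonneg_left _ (Nat.cast_nonneg _)
      linarith
    linarith
  · obtain ⟨f, hf⟩ := hR
    have hee : se s' ≤ se s := se_mono (by omega)
    apply R_bound hee hf
    have h1 : sl s ≤ 11 * cnt f (sl s) := cnt_ge h0 f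
    have h2 : cnt f (sl s) ≤ cnt f (se s) := Helper69.ET.cnt_mono f (sl_lt_se s).le
    have h3 : se s ≤ sl s + 4 * sg s := by
      have a1 := se_lt_sk s
      have a2 := sk_succ_le s
      have a3 := sk_add_le_succ s
      omega
    have h4 := sg_small s
    have h5 := sl_lt_se s'
    omega

end Pool.Agent.Helper63.ET
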