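import Pool.Agent.Helper63.ET.MesoNum

/-!
# Block M, numerics of the union bound
-/

namespace Pool.Agent.Helper63.ET

open Finset Pool.Agent.Helper5.ET Pool.Agent.Helper27.T4

theorem sl_tendsto (y : ℕ) : ∃ s0 : ℕ, ∀ s, s0 ≤ s → y ≤ sl s := by
  refine ⟨2 * y, fun s hs => ?_⟩
  have h1 : y ≤ tau y := tau_strictMono.id_le y
  exact h1.trans (tau_strictMono.monotone (by omega))

theorem sg_tendsto (x : ℝ) : ∃ s0 : ℕ, ∀ s, s0 ≤ s → x ≤ sg s := by
  obtain ⟨n, hn⟩ := exists_nat_ge x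
  obtain ⟨s0, hs0⟩ := sl_tendsto ((2 * n) ^ 2)
  refine ⟨s0, fun s hs => ?_⟩
  have h1 := hs0 s hs
  have h2 : Nat.sqrt (sl s) ≤ 2 * gap (sl s) := gap_ge_sqrt (sl s) (tau_ge _)
  have h3 : 2 * n ≤ Nat.sqrt (sl s) := by
    rw [Nat.le_sqrt']
    exact h1
  have h4 : n ≤ sg s := by
    unfold sg
    omega
  have h5 : (n : ℝ) ≤ sg s := by exact_mod_cast h4
  linarith

theorem log_le : Real.log 1000003 ≤ 14 := by
  rw [Real.log_le_iff_le_exp (by norm_num)]
  have h := Real.exp_one_gt_d9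
  have h2 : Real.exp 14 = Real.exp 1 ^ 14 := by
    rw [← Real.exp_nat_mul]
    norm_num
  rw [h2]
  calc (1000003 : ℝ) ≤ (2.7182818283 : ℝ) ^ 14 := by norm_num
    _ ≤ Real.exp 1 ^ 14 := pow_le_pow_left₀ (by norm_num) h.le 14

theorem Nj_le_exp15 (y : ℕ) : (Nj y : ℝ) ≤ Real.exp (15 * y) := by
  rw [Nj_eq_exp]
  apply Real.exp_le_exp.mpr
  have h1 := (LL_sub (Nat.zero_le y)).2
  have h2 : LL 0 = 0 := by simp [LL, Nj_zero]
  rw [h2] at h1
  have h3 := log_le
  have h4 := log_pos'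
  have h5 : (0 : ℝ) ≤ y := Nat.cast_nonneg y
  have h6 : LL y ≤ (1 + 1 / 100000) * y := by
    simpa using h1
  calc Real.log 1000003 * LL y ≤ Real.log 1000003 * ((1 + 1 / 100000) * y) :=
        mul_le_mul_of_nonneg_left h6 h4.le
    _ ≤ 14 * ((1 + 1 / 100000) * y) := mul_le_mul_of_nonneg_right h3 (by positivity)
    _ ≤ 15 * y := by nlinarith

/-- numerics of the union bound over `n` and the sets of free hits -/
theorem union_num (C' : ℝ) (hC' : 0 < C') : ∃ s0 : ℕ, ∀ s s' : ℕ, s0 ≤ s' → s' + 2 ≤ s →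
    ∃ m : ℕ, (m : ℝ) ≤ 201 * ((sl s : ℝ) / ((sl s : ℝ) - sl s')) ∧
      (2 * Nj (sk (s + 1)) : ℝ) * (C' * Real.exp (-(((sl s : ℝ) - sl s') / 2))) ^ (m + 1) ≤
        Real.exp (-(Real.sqrt (sl s))) / 2 := by
  obtain ⟨s0, hs0⟩ := sg_tendsto (4 * |Real.log C'| + 1)
  refine ⟨s0, ?_⟩
  intro s s' hs' hss
  set l : ℝ := (sl s : ℝ) with hl
  set D : ℝ := (sl s : ℝ) - sl s' with hD
  have hsg := hs0 s' hs'
  have hD1 : (sg s' : ℝ) ≤ D := by
    have h1 : ((sl s' + sg s' : ℕ) : ℝ) ≤ sl s := by exact_mod_cast sl_add_le hss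
    push_cast at h1
    linarith
  have habs := abs_nonneg (Real.log C')
  have hD0 : 0 < D := by linarith
  have hDl : D ≤ l := by
    have : (0 : ℝ) ≤ sl s' := Nat.cast_nonneg _
    linarith
  have hl0 : (2 : ℝ) ^ 64 ≤ l := by
    have h2 : ((2 ^ 64 : ℕ) : ℝ) ≤ (sl s : ℕ) := Nat.cast_le.mpr (sl_ge s)
    calc (2 : ℝ) ^ 64 = ((2 ^ 64 : ℕ) : ℝ) := by norm_cast
      _ ≤ l := h2
  refine ⟨⌈200 * (l / D)⌉₊, ?_, ?_⟩
  · have h1 : 1 ≤ l / D := by
      rw [le_div_iff₀ hD0]
      linarith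
    have h2 := (Nat.ceil_lt_add_one (show 0 ≤ 200 * (l / D) by positivity)).le
    linarith
  · set m := ⌈200 * (l / D)⌉₊ with hm
    have h1 : 200 * (l / D) ≤ m := Nat.le_ceil _
    have h2 : 200 * l ≤ D * m := by
      have h3 : 200 * (l / D) * D = 200 * l := by field_simp
      nlinarith
    have h3 : C' * Real.exp (-(D / 2)) ≤ Real.exp (-(D / 4)) := by
      have h4 : C' = Real.exp (Real.log C') := (Real.exp_log hC').symm
      have h5 := le_abs_self (Real.log C')
      rw [h4, ← Real.exp_add]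
      apply Real.exp_le_exp.mpr
      linarith
    have h6 : (C' * Real.exp (-(D / 2))) ^ (m + 1) ≤ Real.exp (-(50 * l)) := by
      calc (C' * Real.exp (-(D / 2))) ^ (m + 1) ≤ Real.exp (-(D / 4)) ^ (m + 1) :=
            pow_le_pow_left₀ (by positivity) h3 _
        _ = Real.exp ((m + 1 : ℕ) * -(D / 4)) := by rw [Real.exp_nat_mul]
        _ ≤ Real.exp (-(50 * l)) := by
            apply Real.exp_le_exp.mpr
            push_cast
            nlinarith
    have h7 : (sk (s + 1) : ℝ) ≤ 1.01 * l := by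
      have h8 : (sk (s + 1) : ℝ) ≤ sl s + 4 * sg s := by exact_mod_cast sk_succ_le s
      have h9 : (sg s * 2 ^ 10 : ℝ) ≤ sl s := by exact_mod_cast sg_small s
      norm_num at h9
      linarith
    have h10 : (Nj (sk (s + 1)) : ℝ) ≤ Real.exp (16 * l) := by
      refine (Nj_le_exp15 _).trans (Real.exp_le_exp.mpr ?_)
      linarith
    have h11 : Real.sqrt l ≤ l := by
      rw [Real.sqrt_le_left (by positivity)]
      nlinarith
    have h12 : (4 : ℝ) ≤ Real.exp l := by
      have := Real.add_one_le_exp l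
      linarith
    calc (2 * Nj (sk (s + 1)) : ℝ) * (C' * Real.exp (-(D / 2))) ^ (m + 1)
        ≤ (2 * Real.exp (16 * l)) * Real.exp (-(50 * l)) := by
          apply mul_le_mul _ h6 (by positivity) (by positivity)
          linarith
      _ = 2 * Real.exp (-(34 * l)) := by
          rw [mul_assoc, ← Real.exp_add]
          ring_nf
      _ ≤ Real.exp (-(Real.sqrt l)) / 2 := by
          rw [le_div_iff₀ (by norm_num)]
          calc 2 * Real.exp (-(34 * l)) * 2 = 4 * Real.exp (-(34 * l)) := by ring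
            _ ≤ Real.exp l * Real.exp (-(34 * l)) :=
                mul_le_mul_of_nonneg_right h12 (Real.exp_pos _).le
            _ = Real.exp (l + -(34 * l)) := (Real.exp_add _ _).symm
            _ ≤ Real.exp (-(Real.sqrt l)) := by
                apply Real.exp_le_exp.mpr
                linarith

end Pool.Agent.Helper63.ET
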