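import Pool.Agent.Helper5.ET.Defs

/-!
# The size of `Nj y` on a logarithmic scale, positions of the states
-/

namespace Pool.Agent.Helper63.ET

open Finset Pool.Agent.Helper5.ET Pool.Agent.Helper27.T4

theorem cnt_succ (f : Fin 3) (y : ℕ) : cnt f (y + 1) = cnt f y + if own y = f then 1 else 0 := by
  unfold cnt
  rw [range_add_one, filter_insert]
  split_ifs with h
  · rw [card_insert_of_notMem (by simp)]
  · simp

theorem Nj_zero : Nj 0 = 1 := by
  simp [Nj, NN, av, cnt]

theorem Nj_succ (y : ℕ) : Nj (y + 1) = Nj y * pr (own y) := by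
  unfold Nj NN av
  have h : ∀ f : Fin 3, pr f ^ cnt f (y + 1) = pr f ^ cnt f y * (if f = own y then pr (own y) else 1) := by
    intro f
    rw [cnt_succ]
    by_cases hf : own y = f
    · subst hf
      simp [pow_succ]
    · rw [if_neg hf, if_neg (fun h => hf h.symm)]
      simp
  rw [prod_congr rfl (fun f _ => h f), prod_mul_distrib, prod_ite_eq' univ (own y)]
  simp

theorem Nj_pos (y : ℕ) : 0 < Nj y := NN_pos pr_prime _

theorem Nj_dvd {y z : ℕ} (h : y ≤ z) : Nj y ∣ Nj z := by
  induction z, h using Nat.le_induction with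
  | base => exact dvd_rfl
  | succ z _ ih =>
    rw [Nj_succ]
    exact Dvd.dvd.mul_right ih _

theorem Nj_mono {y z : ℕ} (h : y ≤ z) : Nj y ≤ Nj z := Nat.le_of_dvd (Nj_pos z) (Nj_dvd h)

/-- the logarithm of `Nj`, in units of `log 1000003` -/
noncomputable def LL (y : ℕ) : ℝ := Real.log (Nj y) / Real.log 1000003

theorem log_ge : (13 : ℝ) ≤ Real.log 1000003 := by
  rw [Real.le_log_iff_exp_le (by norm_num)]
  have h := Real.exp_one_lt_d9
  have h2 : Real.exp 13 = Real.exp 1 ^ 13 := by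
    rw [← Real.exp_nat_mul]
    norm_num
  rw [h2]
  calc Real.exp 1 ^ 13 ≤ (2.7182818286 : ℝ) ^ 13 :=
        pow_le_pow_left₀ (Real.exp_pos 1).le h.le 13
    _ ≤ 1000003 := by norm_num

theorem log_pos' : (0 : ℝ) < Real.log 1000003 := by
  have := log_ge
  linarith

theorem Nj_eq_exp (y : ℕ) : (Nj y : ℝ) = Real.exp (Real.log 1000003 * LL y) := by
  unfold LL
  rw [mul_div_cancel₀ _ log_pos'.ne', Real.exp_log]
  exact_mod_cast Nj_pos y

theorem log_pr (f : Fin 3) : Real.log 1000003 ≤ Real.log (pr f) ∧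
    Real.log (pr f) ≤ (1 + 1 / 100000) * Real.log 1000003 := by
  have h1 : (1000003 : ℝ) ≤ (pr f : ℝ) := by
    fin_cases f <;> simp [pr] <;> norm_num
  have h2 : (pr f : ℝ) ≤ 1000037 := by
    fin_cases f <;> simp [pr] <;> norm_num
  refine ⟨Real.log_le_log (by norm_num) h1, ?_⟩
  have h3 : Real.log (pr f) ≤ Real.log 1000037 := Real.log_le_log (by linarith) h2
  have h4 : Real.log 1000037 = Real.log 1000003 + Real.log (1000037 / 1000003) := by
    rw [Real.log_div (by norm_num) (by norm_num)]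
    ring
  have h5 : Real.log (1000037 / 1000003) ≤ 1000037 / 1000003 - 1 :=
    Real.log_le_sub_one_of_pos (by norm_num)
  have h6 := log_ge
  have h7 : (1000037 / 1000003 : ℝ) - 1 ≤ 13 / 100000 := by norm_num
  nlinarith

theorem LL_succ (y : ℕ) : LL y + 1 ≤ LL (y + 1) ∧ LL (y + 1) ≤ LL y + (1 + 1 / 100000) := by
  have h0 := log_pos'
  have h1 : LL (y + 1) = LL y + Real.log (pr (own y)) / Real.log 1000003 := by
    unfold LL
    rw [Nj_succ, Nat.cast_mul, Real.log_mul, add_div]
    · exact_mod_cast (Nj_pos y).ne'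
    · exact_mod_cast (pr_prime _).ne_zero
  have h2 := log_pr (own y)
  rw [h1]
  constructor
  · have : 1 ≤ Real.log (pr (own y)) / Real.log 1000003 := by
      rw [le_div_iff₀ h0]
      linarith [h2.1]
    linarith
  · have : Real.log (pr (own y)) / Real.log 1000003 ≤ 1 + 1 / 100000 := by
      rw [div_le_iff₀ h0]
      exact h2.2
    linarith

theorem LL_sub {y z : ℕ} (h : y ≤ z) : (z : ℝ) - y ≤ LL z - LL y ∧
    LL z - LL y ≤ (1 + 1 / 100000) * ((z : ℝ) - y) := by
  induction z, h using Nat.le_induction with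
  | base => simp
  | succ z _ ih =>
    have h1 := LL_succ z
    push_cast
    constructor <;> linarith [ih.1, ih.2, h1.1, h1.2]

theorem LL_mono {y z : ℕ} (h : y ≤ z) : LL y ≤ LL z := by
  have h1 := (LL_sub h).1
  have h2 : (y : ℝ) ≤ z := by exact_mod_cast h
  linarith

/-- all positions of `[y, z]` at once -/
theorem LL_near {y z p : ℕ} (h1 : y ≤ p) (h2 : p ≤ z) :
    0 ≤ LL p - p - (LL y - y) ∧ LL p - p - (LL y - y) ≤ ((z : ℝ) - y) / 100000 := by
  have h3 := LL_sub h1
  have h4 : (p : ℝ) ≤ z := by exact_mod_cast h2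
  constructor <;> linarith [h3.1, h3.2]

/-! ## positions -/

theorem eight_dvd (y : ℕ) : 8 ∣ gap y := ⟨_, rfl⟩

theorem tau_succ (c : ℕ) : tau (c + 1) = tau c + gap (tau c) := rfl

theorem tau_le {j k : ℕ} (h : j ≤ k) : tau j ≤ tau k := by
  induction k, h using Nat.le_induction with
  | base => exact le_rfl
  | succ k _ ih =>
    rw [tau_succ]
    omega

theorem sl_even (c : ℕ) : sl (2 * c) = tau c := by simp [sl]

theorem sl_odd (c : ℕ) : sl (2 * c + 1) = tau c := by
  unfold sl
  congr 1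
  omega

theorem se_even (c : ℕ) : se (2 * c) = tau (c + 1) := by
  unfold se
  congr 1
  omega

theorem se_odd (c : ℕ) : se (2 * c + 1) = tau (c + 2) := by
  unfold se
  congr 1
  omega

theorem sk_even (c : ℕ) : sk (2 * c) = tau (c + 1) + 5 * (gap (tau c) / 8) := by
  unfold sk
  rw [if_pos (by omega)]
  have h : 2 * c / 2 = c := by omega
  rw [h]

theorem sk_odd (c : ℕ) : sk (2 * c + 1) = tau (c + 2) + gap (tau (c + 1)) / 8 := by
  unfold sk
  rw [if_neg (by omega)]
  have h : (2 * c + 1) / 2 = c := by omega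
  rw [h]

theorem sk_even_real (c : ℕ) : (sk (2 * c) : ℝ) = tau c + 13 / 8 * gap (tau c) := by
  rw [sk_even]
  obtain ⟨m, hm⟩ := eight_dvd (tau c)
  rw [tau_succ, hm]
  have : 8 * m / 8 = m := by omega
  rw [this]
  push_cast
  ring

theorem sk_odd_real (c : ℕ) : (sk (2 * c + 1) : ℝ) = tau c + gap (tau c) + 9 / 8 * gap (tau (c + 1)) := by
  rw [sk_odd]
  obtain ⟨m, hm⟩ := eight_dvd (tau (c + 1))
  rw [tau_succ, hm, tau_succ]
  have : 8 * m / 8 = m := by omega
  rw [this]
  push_cast
  ring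

end Pool.Agent.Helper63.ET
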