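import Pool.Agent.Helper63.ET.MesoPrice
import Pool.Agent.Helper3.M.Defs
import Pool.Agent.Helper27.T4.Fresh

/-!
# Block M, part G: the price of a hit and the size of `M_R`
-/

namespace Pool.Agent.Helper63.ET

open Finset Pool.Agent.Helper5.ET Pool.Agent.Helper27.T4

theorem meso_I_sq {s s' b : ℕ} {f1 f0 : Fin 3} (h : Helper3.M.Meso s s' b f1 f0) :
    (Helper3.M.II s s' f1) ^ 2 * Nj (sl s') ≤ Nj b ∧
      (Helper3.M.II1 s s' f1) ^ 2 * Nj b ≤ Nj (sl s) := by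
  have h1 : own (sl s') = f1 := h.own1 (sl s') le_rfl h.lb
  have h2 := I_sq h.lb.le h.bl (fun t ht1 ht2 => by rw [h.own1 t ht1 ht2, h1])
    (fun t ht1 ht2 => by rw [h.own0 t ht1 ht2, h1]; exact h.ne)
  rw [h1] at h2
  refine ⟨?_, ?_⟩
  · have h3 := h2.1
    unfold Helper69.ET.II at h3
    rw [h1] at h3
    exact h3
  · exact h2.2 (univ.erase f1) (Finset.notMem_erase _ _)

/-- (G) the price -/
theorem price_M : ∃ (C : ℝ) (s0 : ℕ), 0 < C ∧ ∀ s s' b f1 f0, s0 ≤ s' →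
    Helper3.M.Meso s s' b f1 f0 →
    (Nj (se s') : ℝ) / Nj (se s) * Helper3.M.II1 s s' f1 *
      ((Helper3.M.LL s s' : ℝ) / 2 ^ lev (vlo s) + 2) *
      (Real.exp (sg s' / 50) * (1 + Helper3.M.II s s' f1 *
        (4 * Real.sqrt (vhi s') / Helper3.M.QQ s' + 4 / Real.sqrt (vlo s')) +
        Helper3.M.II s s' f1 / Helper3.M.QQ s')) ≤
      C * Real.exp (-(((sl s : ℝ) - sl s') / 2)) := by
  refine ⟨200, 0, by norm_num, ?_⟩
  intro s s' b f1 f0 _ h
  obtain ⟨hI, hI1⟩ := meso_I_sq h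
  have hb : b = sl s ∨ (sl s' < b ∧ b < sl s ∧ ∃ j, b = tau j) := by
    rcases h.node with h1 | h1
    · exact Or.inl h1
    · rcases eq_or_lt_of_le h.bl with h2 | h2
      · exact Or.inl h2
      · exact Or.inr ⟨h.lb, h2, h1⟩
  have hLL : (Helper3.M.LL s s' : ℝ) ≤ (2 * Nj (se s) + Nj (sk (s' + 1))) / Nj (sl s) + 1 := by
    unfold Helper3.M.LL
    push_cast
    have h3 : (((2 * Nj (se s) + Nj (sk (s' + 1))) / Nj (sl s) : ℕ) : ℝ) ≤
        ((2 * Nj (se s) + Nj (sk (s' + 1)) : ℕ) : ℝ) / Nj (sl s) := Nat.cast_div_le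
    push_cast at h3
    linarith
  have key := meso_num h.hss hb (I := (Helper3.M.II s s' f1 : ℝ))
    (I1 := (Helper3.M.II1 s s' f1 : ℝ))
    (B1 := (Helper3.M.LL s s' : ℝ) / 2 ^ lev (vlo s) + 2)
    (Wb := Real.exp (sg s' / 50) * (1 + Helper3.M.II s s' f1 *
        (4 * Real.sqrt (vhi s') / Helper3.M.QQ s' + 4 / Real.sqrt (vlo s')) +
        Helper3.M.II s s' f1 / Helper3.M.QQ s')) (R := 0)
    (Nat.cast_nonneg _) (Nat.cast_nonneg _) (by exact_mod_cast hI1) (by exact_mod_cast hI)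
    (by positivity) ?_ (by positivity) ?_ (by positivity)
  · rw [show -(((sl s : ℝ) - sl s') / 2) = -((sl s : ℝ) - sl s') / 2 by ring]
    refine le_trans (le_of_eq ?_) key
    ring
  · apply add_le_add_left
    exact div_le_div_of_nonneg_right hLL (by positivity)
  · apply le_of_eq
    unfold Helper3.M.QQ
    ring

theorem exists_bb3 : ∃ s0 : ℕ, ∀ s, s0 ≤ s → bb 3 ≤ sl s := by
  obtain ⟨c, hc⟩ := bb_node 3
  refine ⟨2 * c, fun s hs => ?_⟩
  rw [← hc]
  exact tau_strictMono.monotone (by omega)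

/-- (G2) `M_R` is macroscopic -/
theorem MR_ge_M : ∃ s0 : ℕ, ∀ s s' b f1 f0, s0 ≤ s' → Helper3.M.Meso s s' b f1 f0 →
    (sl s : ℝ) - sl s' ≤ 1 / 100 * sl s →
    ((MM pr (av (se s)) (Helper3.M.RR s s') : ℝ))⁻¹ ≤ (Nj (se s') : ℝ) / Nj (se s) := by
  obtain ⟨s0, hs0⟩ := exists_bb3
  refine ⟨s0, ?_⟩
  intro s s' b f1 f0 hs' h hl
  have hss := h.hss
  have h0 : bb 3 ≤ sl s := hs0 s (by omega)
  have hll : sl s' ≤ sl s := sl_mono (by omega)
  have hl' : 100 * (sl s - sl s') ≤ sl s := by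
    have h1 : ((100 * (sl s - sl s') : ℕ) : ℝ) ≤ sl s := by
      rw [Nat.cast_mul, Nat.cast_sub hll]
      push_cast
      linarith
    exact_mod_cast h1
  obtain ⟨f, hf⟩ := h.nonempty
  have hee : se s' ≤ se s := se_mono (by omega)
  have hR := R_bound (R := Helper3.M.RR s s') hee hf (by
    have h1 : sl s ≤ 11 * cnt f (sl s) := cnt_ge h0 f
    have h2 : cnt f (sl s) ≤ cnt f (se s) := Helper69.ET.cnt_mono f (sl_lt_se s).le
    have h3 : se s ≤ sl s + 4 * sg s := by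
      have a1 := se_lt_sk s
      have a2 := sk_succ_le s
      have a3 := sk_add_le_succ s
      omega
    have h4 := sg_small s
    have h5 := sl_lt_se s'
    omega)
  rw [one_div] at hR
  have hM : (MM pr (av (se s)) (Helper3.M.RR s s') : ℝ) =
      ∏ f ∈ Helper3.M.RR s s', (pr f : ℝ) ^ cnt f (se s) := by
    unfold MM av
    push_cast
    rfl
  rw [hM]
  exact hR

end Pool.Agent.Helper63.ET
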