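import Pool.Agent.Helper63.ET.LL
import Pool.Agent.Helper27.T4.Sch

/-!
# The price of a meso hit
-/

namespace Pool.Agent.Helper63.ET

open Finset Pool.Agent.Helper5.ET Pool.Agent.Helper27.T4

theorem tau_lt_of {j k : ℕ} (h : tau j < tau k) : j < k := by
  by_contra hc
  exact absurd (tau_le (not_lt.mp hc)) (not_le.mpr h)

/-- everything about the positions in real numbers -/
theorem pos_facts {i c : ℕ} (hic : i + 1 ≤ c) :
    (tau i : ℝ) + gap (tau i) ≤ tau c ∧ (gap (tau i) : ℝ) ≤ gap (tau (i + 1)) ∧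
      (gap (tau (i + 1)) : ℝ) ≤ gap (tau c) ∧ (gap (tau c) : ℝ) ≤ gap (tau (c + 1)) ∧
      (gap (tau (c + 1)) : ℝ) ≤ 5 / 4 * gap (tau c) ∧
      (gap (tau c) : ℝ) ≤ 5 / 4 * ((tau c : ℝ) - tau i) ∧
      ((c = i + 1 ∧ (tau c : ℝ) = tau i + gap (tau i)) ∨
        (i + 2 ≤ c ∧ (tau i : ℝ) + gap (tau i) + gap (tau (i + 1)) ≤ tau c)) := by
  have h1 : tau (i + 1) ≤ tau c := tau_le hic
  have h2 := gap_ratio i
  have h3 := gap_tau_mono hic
  have h4 := gap_ratio c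
  obtain ⟨c', rfl⟩ : ∃ c', c = c' + 1 := ⟨c - 1, by omega⟩
  have h5 := gap_ratio c'
  have h6 : tau i ≤ tau c' := tau_le (by omega)
  have h7 := tau_succ c'
  have h8 := tau_succ i
  refine ⟨?_, ?_, ?_, ?_, ?_, ?_, ?_⟩
  · rw [h8] at h1
    exact_mod_cast h1
  · exact_mod_cast h2.1
  · exact_mod_cast h3
  · exact_mod_cast h4.1
  · have : (4 * gap (tau (c' + 1 + 1)) : ℝ) ≤ 5 * gap (tau (c' + 1)) := by exact_mod_cast h4.2
    linarith
  · have e1 : (4 * gap (tau (c' + 1)) : ℝ) ≤ 5 * gap (tau c') := by exact_mod_cast h5.2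
    have e2 : (tau (c' + 1) : ℝ) = tau c' + gap (tau c') := by rw [h7]; push_cast; ring
    have e3 : (tau i : ℝ) ≤ tau c' := by exact_mod_cast h6
    rw [e2]
    linarith
  · rcases Nat.lt_or_ge (i + 1) (c' + 1) with hlt | hge
    · right
      refine ⟨by omega, ?_⟩
      have h9 : tau (i + 1 + 1) ≤ tau (c' + 1) := tau_le (by omega)
      have h10 := tau_succ (i + 1)
      have h11 : tau i + gap (tau i) + gap (tau (i + 1)) ≤ tau (c' + 1) := by omega
      exact_mod_cast h11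
    · left
      have : c' + 1 = i + 1 := by omega
      refine ⟨this, ?_⟩
      have h11 : c' = i := by omega
      subst h11
      rw [h7]
      push_cast
      ring

/-- the list of prices; `l, e, k` of the state `s`, `l', e', k'` of `s'`, `κ = sk (s' + 1)` -/
structure Price (Λl Λe Λk Λl' Λe' Λk' Λκ Λb L : ℝ) : Prop where
  p1 : L / 20 ≤ (Λk - Λκ) / 2
  p1' : L / 20 ≤ (Λk - Λκ) / 2 - (Λκ - Λe)
  p2 : L / 20 ≤ (Λk + Λb) / 2 - Λe'
  p2' : L / 20 ≤ (Λk + Λb) / 2 - Λe' - (Λκ - Λe)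
  p3 : L / 20 ≤ (Λk + Λk') / 2 - Λe'
  p3' : L / 20 ≤ (Λk + Λk') / 2 - Λe' - (Λκ - Λe)
  p4 : L / 20 ≤ Λe - (Λl + Λκ) / 2
  p5 : L / 20 ≤ Λe - Λe' - (Λl - Λb) / 2
  p6 : L / 20 ≤ Λe - Λe' - (Λl - Λk') / 2

/-- the linear programming part -/
theorem price_lin (l e k l' e' k' κ b η c0 Λl Λe Λk Λl' Λe' Λk' Λκ Λb gi gi1 gc gc1 : ℝ)
    (hl : 0 ≤ Λl - l - c0 ∧ Λl - l - c0 ≤ η) (he : 0 ≤ Λe - e - c0 ∧ Λe - e - c0 ≤ η)
    (hk : 0 ≤ Λk - k - c0 ∧ Λk - k - c0 ≤ η)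
    (he' : 0 ≤ Λe' - e' - c0 ∧ Λe' - e' - c0 ≤ η) (hk' : 0 ≤ Λk' - k' - c0 ∧ Λk' - k' - c0 ≤ η)
    (hκ : 0 ≤ Λκ - κ - c0 ∧ Λκ - κ - c0 ≤ η) (hb : 0 ≤ Λb - b - c0 ∧ Λb - b - c0 ≤ η)
    (hη : η ≤ (l + 4 * gc - l') / 100000) (h0 : 0 ≤ gi) (h1 : l' + gi ≤ l) (h2 : gi ≤ gi1)
    (h3 : gi1 ≤ gc) (h4 : gc ≤ gc1) (_h5 : gc ≤ 5 / 4 * (l - l'))
    (hs : (e = l + gc ∧ k = l + 13 / 8 * gc) ∨ (e = l + gc + gc1 ∧ k = l + gc + 9 / 8 * gc1))
    (hs' : (e' = l' + gi ∧ k' = l' + 13 / 8 * gi ∧ κ = l' + gi + 9 / 8 * gi1) ∨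
      (e' = l' + gi + gi1 ∧ k' = l' + gi + 9 / 8 * gi1 ∧ κ = l' + gi + 13 / 8 * gi1))
    (hm : (l = l' + gi ∧ gi1 = gc ∧ b = l ∧
        ((e = l + gc + gc1 ∧ k = l + gc + 9 / 8 * gc1) ∨
          (e' = l' + gi ∧ k' = l' + 13 / 8 * gi ∧ κ = l' + gi + 9 / 8 * gi1))) ∨
      (l' + gi + gi1 ≤ l ∧ l' + gi ≤ b)) :
    Price Λl Λe Λk Λl' Λe' Λk' Λκ Λb (l - l') := by
  obtain ⟨hl1, hl2⟩ := hl
  obtain ⟨he1, he2⟩ := he
  obtain ⟨hk1, hk2⟩ := hk
  obtain ⟨he'1, he'2⟩ := he'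
  obtain ⟨hk'1, hk'2⟩ := hk'
  obtain ⟨hκ1, hκ2⟩ := hκ
  obtain ⟨hb1, hb2⟩ := hb
  rcases hm with ⟨m1, m2, m3, m4⟩ | ⟨m1, m2⟩
  · rcases hs with ⟨s1, s2⟩ | ⟨s1, s2⟩
    · have hs'' : e' = l' + gi ∧ k' = l' + 13 / 8 * gi ∧ κ = l' + gi + 9 / 8 * gi1 ∨
          False := by
        rcases m4 with ⟨a, a2⟩ | a
        · left
          rcases hs' with h | ⟨b1, b2, b3⟩
          · exact h
          · have : gc1 = 0 := by linarith
            have : gc = 0 := by linarith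
            refine ⟨by linarith, by linarith, by linarith⟩
        · exact Or.inl a
      rcases hs'' with ⟨t1, t2, t3⟩ | h
      · constructor <;> linarith
      · exact h.elim
    · rcases hs' with ⟨t1, t2, t3⟩ | ⟨t1, t2, t3⟩
      · constructor <;> linarith
      · constructor <;> linarith
  · rcases hs with ⟨s1, s2⟩ | ⟨s1, s2⟩
    · rcases hs' with ⟨t1, t2, t3⟩ | ⟨t1, t2, t3⟩
      · constructor <;> linarith
      · constructor <;> linarith
    · rcases hs' with ⟨t1, t2, t3⟩ | ⟨t1, t2, t3⟩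
      · constructor <;> linarith
      · constructor <;> linarith

/-- the prices for all pairs of states -/
theorem price {s s' b : ℕ} (hs : s' + 2 ≤ s)
    (hb : b = sl s ∨ (sl s' < b ∧ b < sl s ∧ ∃ j, b = tau j)) :
    Price (LL (sl s)) (LL (se s)) (LL (sk s)) (LL (sl s')) (LL (se s')) (LL (sk s'))
      (LL (sk (s' + 1))) (LL b) ((sl s : ℝ) - sl s') := by
  have hic : s' / 2 + 1 ≤ s / 2 := by omega
  have hsl : sl s' ≤ sl s := sl_mono (by omega)
  have hse : se s' ≤ se s := se_mono (by omega)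
  have hlk : sl s ≤ sk s := ((sl_lt_se s).trans (se_lt_sk s)).le
  have hbl : sl s' ≤ b ∧ b ≤ sl s := by
    rcases hb with rfl | h
    · exact ⟨hsl, le_rfl⟩
    · exact ⟨h.1.le, h.2.1.le⟩
  have hkk : sk (s' + 1) ≤ sk s := sk_strictMono.monotone (by omega)
  have hkk' : sk s' ≤ sk s := sk_strictMono.monotone (by omega)
  have hup : (sk s : ℝ) ≤ sl s + 4 * sg s := by
    have h1 : sk s ≤ sk (s + 1) := sk_strictMono.monotone (by omega)
    exact_mod_cast h1.trans (sk_succ_le s)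
  have hη : ((sk s : ℝ) - sl s') / 100000 ≤ ((sl s : ℝ) + 4 * sg s - sl s') / 100000 := by
    apply div_le_div_of_nonneg_right _ (by norm_num)
    linarith
  have near : ∀ p, sl s' ≤ p → p ≤ sk s → 0 ≤ LL p - p - (LL (sl s') - sl s') ∧
      LL p - p - (LL (sl s') - sl s') ≤ ((sk s : ℝ) - sl s') / 100000 :=
    fun p h1 h2 => LL_near h1 h2
  have g1 := near (sl s) hsl hlk
  have g2 := near (se s) (hsl.trans (sl_lt_se s).le) (se_lt_sk s).le
  have g3 := near (sk s) (hsl.trans hlk) le_rfl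
  have g4 := near (se s') (sl_lt_se s').le (hse.trans (se_lt_sk s).le)
  have g5 := near (sk s') ((sl_lt_se s').trans (se_lt_sk s')).le hkk'
  have g6 := near (sk (s' + 1)) ((sl_mono (by omega : s' ≤ s' + 1)).trans
    ((sl_lt_se (s' + 1)).trans (se_lt_sk (s' + 1))).le) hkk
  have g7 := near b hbl.1 (hbl.2.trans hlk)
  obtain ⟨f1, f2, f3, f4, f5, f6, f7⟩ := pos_facts hic
  have e1 : (tau (s / 2 + 1) : ℝ) = tau (s / 2) + gap (tau (s / 2)) := by
    rw [tau_succ]; push_cast; ring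
  have e2 : (tau (s / 2 + 2) : ℝ) = tau (s / 2) + gap (tau (s / 2)) + gap (tau (s / 2 + 1)) := by
    rw [show s / 2 + 2 = s / 2 + 1 + 1 from rfl, Helper63.ET.tau_succ (s / 2 + 1)]
    push_cast
    rw [e1]
  have e1' : (tau (s' / 2 + 1) : ℝ) = tau (s' / 2) + gap (tau (s' / 2)) := by
    rw [tau_succ]; push_cast; ring
  have e2' : (tau (s' / 2 + 2) : ℝ) =
      tau (s' / 2) + gap (tau (s' / 2)) + gap (tau (s' / 2 + 1)) := by
    rw [show s' / 2 + 2 = s' / 2 + 1 + 1 from rfl, Helper63.ET.tau_succ (s' / 2 + 1)]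
    push_cast
    rw [e1']
  have hsl_s : (sl s : ℝ) = tau (s / 2) := rfl
  have hsl_s' : (sl s' : ℝ) = tau (s' / 2) := rfl
  have P1 : (s % 2 = 0 ∧ (se s : ℝ) = sl s + gap (tau (s / 2)) ∧
      (sk s : ℝ) = sl s + 13 / 8 * gap (tau (s / 2))) ∨
      (s % 2 = 1 ∧ (se s : ℝ) = sl s + gap (tau (s / 2)) + gap (tau (s / 2 + 1)) ∧
      (sk s : ℝ) = sl s + gap (tau (s / 2)) + 9 / 8 * gap (tau (s / 2 + 1))) := by
    rcases Nat.even_or_odd' s with ⟨c, rfl | rfl⟩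
    · left
      have h : 2 * c / 2 = c := by omega
      rw [h] at e1 ⊢
      refine ⟨by omega, ?_, ?_⟩
      · rw [se_even, sl_even, e1]
      · rw [sk_even_real, sl_even]
    · right
      have h : (2 * c + 1) / 2 = c := by omega
      rw [h] at e2 ⊢
      refine ⟨by omega, ?_, ?_⟩
      · rw [se_odd, sl_odd, e2]
      · rw [sk_odd_real, sl_odd]
  have P2 : (s' % 2 = 0 ∧ (se s' : ℝ) = sl s' + gap (tau (s' / 2)) ∧
      (sk s' : ℝ) = sl s' + 13 / 8 * gap (tau (s' / 2)) ∧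
      (sk (s' + 1) : ℝ) = sl s' + gap (tau (s' / 2)) + 9 / 8 * gap (tau (s' / 2 + 1))) ∨
      (s' % 2 = 1 ∧ (se s' : ℝ) = sl s' + gap (tau (s' / 2)) + gap (tau (s' / 2 + 1)) ∧
      (sk s' : ℝ) = sl s' + gap (tau (s' / 2)) + 9 / 8 * gap (tau (s' / 2 + 1)) ∧
      (sk (s' + 1) : ℝ) = sl s' + gap (tau (s' / 2)) + 13 / 8 * gap (tau (s' / 2 + 1))) := by
    rcases Nat.even_or_odd' s' with ⟨c, rfl | rfl⟩
    · left
      have h : 2 * c / 2 = c := by omega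
      rw [h] at e1' ⊢
      refine ⟨by omega, ?_, ?_, ?_⟩
      · rw [se_even, sl_even, e1']
      · rw [sk_even_real, sl_even]
      · rw [sk_odd_real, sl_even]
    · right
      have h : (2 * c + 1) / 2 = c := by omega
      rw [h] at e1' e2' ⊢
      refine ⟨by omega, ?_, ?_, ?_⟩
      · rw [se_odd, sl_odd, e2']
      · rw [sk_odd_real, sl_odd]
      · rw [show 2 * c + 1 + 1 = 2 * (c + 1) by ring, sk_even_real, sl_odd, e1']
  have hg : (sg s : ℝ) = gap (tau (s / 2)) := rfl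
  rw [hg] at hη
  refine price_lin (sl s) (se s) (sk s) (sl s') (se s') (sk s') (sk (s' + 1)) b
    (((sk s : ℝ) - sl s') / 100000) (LL (sl s') - sl s') _ _ _ _ _ _ _ _
    (gap (tau (s' / 2))) (gap (tau (s' / 2 + 1))) (gap (tau (s / 2))) (gap (tau (s / 2 + 1)))
    g1 g2 g3 g4 g5 g6 g7 hη (by positivity) f1 f2 f3 f4 f6 ?_ ?_ ?_
  · rcases P1 with ⟨_, h1, h2⟩ | ⟨_, h1, h2⟩
    · exact Or.inl ⟨h1, h2⟩
    · exact Or.inr ⟨h1, h2⟩
  · rcases P2 with ⟨_, h1, h2, h3⟩ | ⟨_, h1, h2, h3⟩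
    · exact Or.inl ⟨h1, h2, h3⟩
    · exact Or.inr ⟨h1, h2, h3⟩
  · rcases f7 with ⟨h1, h2⟩ | ⟨h1, h2⟩
    · left
      have hb' : b = sl s := by
        rcases hb with h | ⟨h3, h4, j, rfl⟩
        · exact h
        · exfalso
          have h5 := tau_lt_of h3
          have h6 := tau_lt_of h4
          omega
      refine ⟨h2, by rw [h1], by rw [hb'], ?_⟩
      rcases P1 with ⟨q1, h3, h4⟩ | ⟨q1, h3, h4⟩
      · right
        rcases P2 with ⟨q2, h5, h6, h7⟩ | ⟨q2, h5, h6, h7⟩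
        · exact ⟨h5, h6, h7⟩
        · omega
      · exact Or.inl ⟨h3, h4⟩
    · right
      refine ⟨h2, ?_⟩
      rcases hb with rfl | ⟨h3, h4, j, rfl⟩
      · linarith
      · have h5 := tau_lt_of h3
        have h6 : tau (s' / 2 + 1) ≤ tau j := tau_le h5
        have h7 : (tau (s' / 2 + 1) : ℝ) ≤ tau j := by exact_mod_cast h6
        linarith

/-! ## exponentials -/

/-- the exponential function to the basis 1000003 -/
noncomputable def EE (x : ℝ) : ℝ := Real.exp (Real.log 1000003 * x)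

theorem EE_pos (x : ℝ) : 0 < EE x := Real.exp_pos _

theorem EE_mul (x y : ℝ) : EE x * EE y = EE (x + y) := by
  unfold EE
  rw [← Real.exp_add]
  ring_nf

theorem EE_mono {x y : ℝ} (h : x ≤ y) : EE x ≤ EE y :=
  Real.exp_le_exp.mpr (mul_le_mul_of_nonneg_left h log_pos'.le)

theorem EE_zero : EE 0 = 1 := by simp [EE]

theorem EE_div (x y : ℝ) : EE x / EE y = EE (x - y) := by
  rw [div_eq_iff (EE_pos y).ne', EE_mul]
  ring_nf

theorem Nj_EE (y : ℕ) : (Nj y : ℝ) = EE (LL y) := Nj_eq_exp y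

theorem sqrt_EE (x : ℝ) : √(EE x) = EE (x / 2) := by
  rw [Real.sqrt_eq_iff_mul_self_eq (EE_pos _).le (EE_pos _).le, EE_mul]
  ring_nf

theorem vlo_EE (s : ℕ) : (vlo s : ℝ) = EE (LL (sk s) - LL (sl s)) := by
  unfold vlo
  rw [Nat.cast_div (Nj_dvd ((sl_lt_se s).trans (se_lt_sk s)).le)
    (by exact_mod_cast (Nj_pos _).ne'), Nj_EE, Nj_EE, EE_div]

theorem vhi_EE (s : ℕ) : (vhi s : ℝ) ≤ EE (LL (sk (s + 1)) - LL (sl s)) := by
  unfold vhi
  calc (((Nj (sk (s + 1)) - Nj (se s)) / Nj (sl s) : ℕ) : ℝ)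
      ≤ ((Nj (sk (s + 1)) - Nj (se s) : ℕ) : ℝ) / Nj (sl s) := Nat.cast_div_le
    _ ≤ (Nj (sk (s + 1)) : ℝ) / Nj (sl s) := by
        apply div_le_div_of_nonneg_right _ (Nat.cast_nonneg _)
        exact_mod_cast Nat.sub_le _ _
    _ = EE (LL (sk (s + 1)) - LL (sl s)) := by rw [Nj_EE, Nj_EE, EE_div]

theorem Qq_EE (s : ℕ) : ((Nj (se s) / Nj (sl s) : ℕ) : ℝ) = EE (LL (se s) - LL (sl s)) := by
  rw [Nat.cast_div (Nj_dvd (sl_lt_se s).le)
    (by exact_mod_cast (Nj_pos _).ne'), Nj_EE, Nj_EE, EE_div]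

theorem vlo_pos (s : ℕ) : 0 < vlo s := by
  have h : (0 : ℝ) < vlo s := by
    rw [vlo_EE]
    exact EE_pos _
  exact_mod_cast h

theorem two_pow_lev (v : ℕ) : √(v : ℝ) ≤ 2 * 2 ^ lev v := by
  have h1 : v < 4 ^ (lev v + 1) := Nat.lt_pow_succ_log_self (by norm_num) v
  have h2 : (v : ℝ) ≤ (2 * 2 ^ lev v) ^ 2 := by
    have h3 : (v : ℝ) ≤ 4 ^ (lev v + 1) := by exact_mod_cast h1.le
    calc (v : ℝ) ≤ 4 ^ (lev v + 1) := h3
      _ = (2 * 2 ^ lev v) ^ 2 := by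
        rw [show (4 : ℝ) = 2 ^ 2 by norm_num, ← pow_mul]
        ring
  exact Real.sqrt_le_iff.mpr ⟨by positivity, h2⟩

/-- the price of a meso hit -/
theorem meso_num {s s' b : ℕ} (hs : s' + 2 ≤ s)
    (hb : b = sl s ∨ (sl s' < b ∧ b < sl s ∧ ∃ j, b = tau j))
    {I I1 B1 Wb R : ℝ} (_hI : 0 ≤ I) (hI1 : 0 ≤ I1)
    (hI1' : I1 ^ 2 * Nj b ≤ Nj (sl s)) (hI' : I ^ 2 * Nj (sl s') ≤ Nj b)
    (hB0 : 0 ≤ B1)
    (hB : B1 ≤ ((2 * Nj (se s) + Nj (sk (s' + 1))) / Nj (sl s) + 1) / 2 ^ lev (vlo s) + 2)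
    (hW0 : 0 ≤ Wb)
    (hW : Wb ≤ Real.exp (sg s' / 50) * (1 + I / ((Nj (se s') / Nj (sl s') : ℕ) : ℝ) +
      I * (4 * √(vhi s' : ℝ) / ((Nj (se s') / Nj (sl s') : ℕ) : ℝ) + 4 / √(vlo s' : ℝ))))
    (hR : R ≤ Nj (se s') / Nj (se s)) :
    I1 * B1 * Wb * (Nj (se s') / Nj (se s) + R) ≤ 200 * Real.exp (-((sl s : ℝ) - sl s') / 2) := by
  obtain ⟨p1, p1', p2, p2', p3, p3', p4, p5, p6⟩ := price hs hb
  have hκl : LL (sl s') ≤ LL (sk (s' + 1)) := LL_mono
    ((sl_mono (by omega : s' ≤ s' + 1)).trans ((sl_lt_se (s' + 1)).trans (se_lt_sk (s' + 1))).le)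
  have hle : LL (sl s) ≤ LL (se s) := LL_mono (sl_lt_se s).le
  -- the factors as exponentials
  have hI1e : I1 ≤ EE ((LL (sl s) - LL b) / 2) := by
    have h1 : I1 ^ 2 ≤ EE (LL (sl s) - LL b) := by
      rw [← EE_div, le_div_iff₀ (EE_pos _), ← Nj_EE, ← Nj_EE]
      exact hI1'
    rw [← sqrt_EE]
    exact Real.le_sqrt_of_sq_le h1
  have hIe : I ≤ EE ((LL b - LL (sl s')) / 2) := by
    have h1 : I ^ 2 ≤ EE (LL b - LL (sl s')) := by
      rw [← EE_div, le_div_iff₀ (EE_pos _), ← Nj_EE, ← Nj_EE]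
      exact hI'
    rw [← sqrt_EE]
    exact Real.le_sqrt_of_sq_le h1
  have hBe : B1 ≤ (6 * EE (LL (se s) - LL (sl s)) + 2 * EE (LL (sk (s' + 1)) - LL (sl s))) *
      EE (-(LL (sk s) - LL (sl s)) / 2) + 2 := by
    refine hB.trans ?_
    have h1 : EE ((LL (sk s) - LL (sl s)) / 2) ≤ 2 * 2 ^ lev (vlo s) := by
      rw [← sqrt_EE, ← vlo_EE]
      exact two_pow_lev _
    have h2 : (2 * (Nj (se s) : ℝ) + Nj (sk (s' + 1))) / Nj (sl s) + 1 ≤
        3 * EE (LL (se s) - LL (sl s)) + EE (LL (sk (s' + 1)) - LL (sl s)) := by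
      rw [add_div, mul_div_assoc, Nj_EE, Nj_EE, Nj_EE, EE_div, EE_div]
      have h3 : EE 0 ≤ EE (LL (se s) - LL (sl s)) := EE_mono (by linarith)
      rw [EE_zero] at h3
      linarith
    have h3 : 1 / (2 : ℝ) ^ lev (vlo s) ≤ 2 * EE (-(LL (sk s) - LL (sl s)) / 2) := by
      rw [div_le_iff₀ (by positivity)]
      have h4 : EE (-(LL (sk s) - LL (sl s)) / 2) * EE ((LL (sk s) - LL (sl s)) / 2) = 1 := by
        rw [EE_mul, ← EE_zero]
        congr 1
        ring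
      have h5 := mul_le_mul_of_nonneg_left h1 (EE_pos (-(LL (sk s) - LL (sl s)) / 2)).le
      rw [h4] at h5
      linarith
    have h6 : 0 ≤ (2 * (Nj (se s) : ℝ) + Nj (sk (s' + 1))) / Nj (sl s) + 1 := by positivity
    calc ((2 * (Nj (se s) : ℝ) + Nj (sk (s' + 1))) / Nj (sl s) + 1) / 2 ^ lev (vlo s) + 2
        = ((2 * (Nj (se s) : ℝ) + Nj (sk (s' + 1))) / Nj (sl s) + 1) * (1 / 2 ^ lev (vlo s)) + 2 := by
          rw [mul_one_div]
      _ ≤ (3 * EE (LL (se s) - LL (sl s)) + EE (LL (sk (s' + 1)) - LL (sl s))) *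
          (2 * EE (-(LL (sk s) - LL (sl s)) / 2)) + 2 := by
          gcongr
          exact add_nonneg (mul_nonneg (by norm_num) (EE_pos _).le) (EE_pos _).le
      _ = _ := by ring
  have hWe : Wb ≤ Real.exp (sg s' / 50) * (1 +
      5 * (EE ((LL b - LL (sl s')) / 2) *
        EE ((LL (sk (s' + 1)) - LL (sl s')) / 2 - (LL (se s') - LL (sl s')))) +
      4 * (EE ((LL b - LL (sl s')) / 2) * EE (-(LL (sk s') - LL (sl s')) / 2))) := by
    refine hW.trans (mul_le_mul_of_nonneg_left ?_ (Real.exp_pos _).le)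
    rw [Qq_EE, vlo_EE, sqrt_EE]
    have h1 : √(vhi s' : ℝ) ≤ EE ((LL (sk (s' + 1)) - LL (sl s')) / 2) := by
      rw [← sqrt_EE]
      exact Real.sqrt_le_sqrt (vhi_EE s')
    have h2 : I / EE (LL (se s') - LL (sl s')) ≤ EE ((LL b - LL (sl s')) / 2) *
        EE ((LL (sk (s' + 1)) - LL (sl s')) / 2 - (LL (se s') - LL (sl s'))) := by
      rw [← EE_div ((LL (sk (s' + 1)) - LL (sl s')) / 2) (LL (se s') - LL (sl s')),
        ← mul_div_assoc]
      apply div_le_div_of_nonneg_right _ (EE_pos _).le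
      have h3 : EE 0 ≤ EE ((LL (sk (s' + 1)) - LL (sl s')) / 2) := EE_mono (by linarith)
      rw [EE_zero] at h3
      calc I = I * 1 := (mul_one I).symm
        _ ≤ _ := mul_le_mul hIe h3 zero_le_one (EE_pos _).le
    have h4 : I * (4 * √(vhi s' : ℝ) / EE (LL (se s') - LL (sl s'))) ≤
        4 * (EE ((LL b - LL (sl s')) / 2) *
        EE ((LL (sk (s' + 1)) - LL (sl s')) / 2 - (LL (se s') - LL (sl s')))) := by
      rw [← EE_div ((LL (sk (s' + 1)) - LL (sl s')) / 2) (LL (se s') - LL (sl s'))]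
      calc I * (4 * √(vhi s' : ℝ) / EE (LL (se s') - LL (sl s')))
          = 4 * (I * (√(vhi s' : ℝ) / EE (LL (se s') - LL (sl s')))) := by ring
        _ ≤ _ := by
          apply mul_le_mul_of_nonneg_left _ (by norm_num)
          apply mul_le_mul hIe _ 
            (div_nonneg (Real.sqrt_nonneg _) (EE_pos _).le) (EE_pos _).le
          exact div_le_div_of_nonneg_right h1 (EE_pos _).le
    have h5 : I * (4 / EE ((LL (sk s') - LL (sl s')) / 2)) ≤
        4 * (EE ((LL b - LL (sl s')) / 2) * EE (-(LL (sk s') - LL (sl s')) / 2)) := by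
      have h6 : 1 / EE ((LL (sk s') - LL (sl s')) / 2) = EE (-(LL (sk s') - LL (sl s')) / 2) := by
        rw [← EE_zero, EE_div]
        congr 1
        ring
      calc I * (4 / EE ((LL (sk s') - LL (sl s')) / 2))
          = 4 * (I * (1 / EE ((LL (sk s') - LL (sl s')) / 2))) := by ring
        _ = 4 * (I * EE (-(LL (sk s') - LL (sl s')) / 2)) := by rw [h6]
        _ ≤ _ := by
          apply mul_le_mul_of_nonneg_left _ (by norm_num)
          exact mul_le_mul_of_nonneg_right hIe (EE_pos _).le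
    rw [mul_add]
    linarith
  have hRe : (Nj (se s') : ℝ) / Nj (se s) + R ≤ 2 * EE (LL (se s') - LL (se s)) := by
    have h1 : (Nj (se s') : ℝ) / Nj (se s) = EE (LL (se s') - LL (se s)) := by
      rw [Nj_EE, Nj_EE, EE_div]
    linarith
  -- multiplying out
  set a := (LL (sl s) - LL b) / 2 with ha
  set b1 := LL (se s) - LL (sl s) with hb1
  set b2 := LL (sk (s' + 1)) - LL (sl s) with hb2
  set b3 := -(LL (sk s) - LL (sl s)) / 2 with hb3
  set u := (LL b - LL (sl s')) / 2 with hu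
  set c1 := (LL (sk (s' + 1)) - LL (sl s')) / 2 - (LL (se s') - LL (sl s')) with hc1
  set c2 := -(LL (sk s') - LL (sl s')) / 2 with hc2
  set d := LL (se s') - LL (se s) with hd
  set L := (sl s : ℝ) - sl s' with hL
  have hA1 : 0 ≤ (6 * EE b1 + 2 * EE b2) * EE b3 + 2 := by
    have := EE_pos b1
    have := EE_pos b2
    have := EE_pos b3
    positivity
  have hA3 : 0 ≤ 1 + 5 * (EE u * EE c1) + 4 * (EE u * EE c2) := by
    have := EE_pos u
    have := EE_pos c1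
    have := EE_pos c2
    positivity
  have step1 : I1 * B1 * Wb * (Nj (se s') / Nj (se s) + R) ≤
      EE a * ((6 * EE b1 + 2 * EE b2) * EE b3 + 2) *
        (Real.exp (sg s' / 50) * (1 + 5 * (EE u * EE c1) + 4 * (EE u * EE c2))) *
        (2 * EE d) := by
    have h1 : I1 * B1 ≤ EE a * ((6 * EE b1 + 2 * EE b2) * EE b3 + 2) :=
      mul_le_mul hI1e hBe hB0 (EE_pos _).le
    have h2 : I1 * B1 * Wb ≤ EE a * ((6 * EE b1 + 2 * EE b2) * EE b3 + 2) *
        (Real.exp (sg s' / 50) * (1 + 5 * (EE u * EE c1) + 4 * (EE u * EE c2))) :=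
      mul_le_mul h1 hWe hW0 (mul_nonneg (EE_pos _).le hA1)
    calc I1 * B1 * Wb * (Nj (se s') / Nj (se s) + R)
        ≤ I1 * B1 * Wb * (2 * EE d) :=
          mul_le_mul_of_nonneg_left hRe (mul_nonneg (mul_nonneg hI1 hB0) hW0)
      _ ≤ _ := mul_le_mul_of_nonneg_right h2 (mul_nonneg (by norm_num) (EE_pos _).le)
  have step2 : EE a * ((6 * EE b1 + 2 * EE b2) * EE b3 + 2) *
        (Real.exp (sg s' / 50) * (1 + 5 * (EE u * EE c1) + 4 * (EE u * EE c2))) *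
        (2 * EE d) = Real.exp (sg s' / 50) *
      (12 * EE (a + b1 + b3 + d) + 4 * EE (a + b2 + b3 + d) + 4 * EE (a + d) +
       60 * EE (a + b1 + b3 + (u + c1) + d) + 20 * EE (a + b2 + b3 + (u + c1) + d) +
        20 * EE (a + (u + c1) + d) +
       48 * EE (a + b1 + b3 + (u + c2) + d) + 16 * EE (a + b2 + b3 + (u + c2) + d) +
        16 * EE (a + (u + c2) + d)) := by
    simp only [← EE_mul]
    ring
  have q1 : EE (a + b1 + b3 + d) ≤ EE (-(L / 20)) := EE_mono (by linarith)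
  have q2 : EE (a + b2 + b3 + d) ≤ EE (-(L / 20)) := EE_mono (by linarith)
  have q3 : EE (a + d) ≤ EE (-(L / 20)) := EE_mono (by linarith)
  have q4 : EE (a + b1 + b3 + (u + c1) + d) ≤ EE (-(L / 20)) := EE_mono (by linarith)
  have q5 : EE (a + b2 + b3 + (u + c1) + d) ≤ EE (-(L / 20)) := EE_mono (by linarith)
  have q6 : EE (a + (u + c1) + d) ≤ EE (-(L / 20)) := EE_mono (by linarith)
  have q7 : EE (a + b1 + b3 + (u + c2) + d) ≤ EE (-(L / 20)) := EE_mono (by linarith)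
  have q8 : EE (a + b2 + b3 + (u + c2) + d) ≤ EE (-(L / 20)) := EE_mono (by linarith)
  have q9 : EE (a + (u + c2) + d) ≤ EE (-(L / 20)) := EE_mono (by linarith)
  have hgL : (sg s' : ℝ) ≤ L := by
    have h1 := sl_add_le hs
    have h2 : ((sl s' + sg s' : ℕ) : ℝ) ≤ sl s := by exact_mod_cast h1
    push_cast at h2
    linarith
  have hL0 : 0 ≤ L := le_trans (Nat.cast_nonneg _) hgL
  have step3 : Real.exp (sg s' / 50) * EE (-(L / 20)) ≤ Real.exp (-L / 2) := by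
    unfold EE
    rw [← Real.exp_add]
    apply Real.exp_le_exp.mpr
    have h13 := log_ge
    nlinarith
  calc I1 * B1 * Wb * (Nj (se s') / Nj (se s) + R) ≤ _ := step1
    _ = _ := step2
    _ ≤ Real.exp (sg s' / 50) * (200 * EE (-(L / 20))) := by
        apply mul_le_mul_of_nonneg_left _ (Real.exp_pos _).le
        linarith
    _ = 200 * (Real.exp (sg s' / 50) * EE (-(L / 20))) := by ring
    _ ≤ 200 * Real.exp (-L / 2) := mul_le_mul_of_nonneg_left step3 (by norm_num)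

/-- the modulus of the hashed static families is large -/
theorem R_bound {R : Finset (Fin 3)} {e e' : ℕ} (h : e' ≤ e) {f : Fin 3} (hf : f ∈ R)
    (hc : 2 * (e - e') ≤ cnt f e) :
    1 / (∏ f ∈ R, (pr f : ℝ) ^ cnt f e) ≤ Nj e' / Nj e := by
  have h1 : (Nj e' : ℝ) / Nj e = EE (LL e' - LL e) := by rw [Nj_EE, Nj_EE, EE_div]
  have h2 := (LL_sub h).2
  have h3 : EE (LL e - LL e') ≤ ∏ f ∈ R, (pr f : ℝ) ^ cnt f e := by
    have h4 : (pr f : ℝ) ^ cnt f e ≤ ∏ f ∈ R, (pr f : ℝ) ^ cnt f e := by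
      rw [← Finset.mul_prod_erase R (fun f => (pr f : ℝ) ^ cnt f e) hf]
      have h5 : 1 ≤ ∏ x ∈ R.erase f, (pr x : ℝ) ^ cnt x e := by
        apply Finset.one_le_prod
        intro i _
        apply one_le_pow₀
        exact_mod_cast (pr_prime i).one_lt.le
      have h6 : (0 : ℝ) ≤ (pr f : ℝ) ^ cnt f e := by positivity
      nlinarith
    refine le_trans ?_ h4
    have h7 : (pr f : ℝ) ^ cnt f e = Real.exp (cnt f e * Real.log (pr f)) := by
      rw [mul_comm, Real.exp_mul, Real.exp_log (by exact_mod_cast (pr_prime f).pos),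
        Real.rpow_natCast]
    rw [h7]
    unfold EE
    apply Real.exp_le_exp.mpr
    have h8 := (log_pr f).1
    have h9 := log_pos'
    have h10 : (2 : ℝ) * ((e : ℝ) - e') ≤ cnt f e := by
      have : ((2 * (e - e') : ℕ) : ℝ) ≤ cnt f e := by exact_mod_cast hc
      rw [Nat.cast_mul, Nat.cast_sub h] at this
      exact_mod_cast this
    have h11 : (0 : ℝ) ≤ (e : ℝ) - e' := by
      have : (e' : ℝ) ≤ e := by exact_mod_cast h
      linarith
    calc Real.log 1000003 * (LL e - LL e') ≤ Real.log 1000003 * cnt f e := by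
          apply mul_le_mul_of_nonneg_left _ h9.le
          linarith
      _ ≤ cnt f e * Real.log (pr f) := by
          rw [mul_comm]
          exact mul_le_mul_of_nonneg_left h8 (Nat.cast_nonneg _)
  rw [h1, one_div]
  have h12 : EE (LL e' - LL e) = (EE (LL e - LL e'))⁻¹ := by
    rw [eq_comm, inv_eq_iff_eq_inv, eq_comm, inv_eq_of_mul_eq_one_left]
    rw [EE_mul, ← EE_zero]
    congr 1
    ring
  rw [h12]
  exact inv_anti₀ (EE_pos _) h3

end Pool.Agent.Helper63.ET
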